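import Mathlib
import Pool.Agent.Helper55.JS.Walks

/-!
# Project JS, piece 13: copies with a prescribed vertex
-/

set_option autoImplicit false

namespace Pool.Agent.Helper55.JS

open Finset

variable {V : Type} [Fintype V] [DecidableEq V] {G : SimpleGraph V}

namespace P13

theorem mem_Pc {O Ξ : Type} [Fintype O] [Fintype Ξ] [DecidableEq Ξ] {Os : Finset O}
    {U : O → V} {ξ : O → Ξ} {S : O → Finset V} {i : ℕ} {x : Ξ} {v : V}
    {q : O × (Fin (i + 1) → V)} :
    q ∈ Pc G Os U ξ S i x v ↔ q.1 ∈ Os ∧ ξ q.1 = x ∧ IsWalk G q.2 ∧ q.2 0 = U q.1 ∧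
    q.2 (Fin.last i) = v ∧ Function.Injective q.2 ∧ ∀ r, q.2 r ∉ S q.1 := by
  unfold Pc
  simp

omit [DecidableEq V] in
theorem mem_oth {s : ℕ} {j : Fin s → ℕ} {c : Fin s} {o : Oth V j c} :
    o ∈ oth G j c ↔ IsOth G j c o := by
  unfold oth
  simp

omit [DecidableEq V] in
theorem mem_cps {s : ℕ} {j : Fin s → ℕ} {f : V × Legs V j} :
    f ∈ cps G j ↔ IsCopy G j f.1 f.2 := by
  unfold cps
  simp

/-- the number of copies with prescribed roots and one prescribed vertex on leg `c` -/
theorem IXz_le {s : ℕ} {j : Fin s → ℕ} (c : Fin s) (i : Fin (j c)) (X : Fin s → V) (z : V) :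
    IXz G j X c i z ≤
      Iv G (oth G j c) (fun o => o.1) oX oS i (fun b : {b : Fin s // b ≠ c} => X b) z *
        W G (j c - i) z (X c) := by
  classical
  unfold IXz Iv
  rw [← card_wk, ← Nat.cast_mul, ← card_product]
  norm_cast
  refine card_le_card_of_injOn (fun f =>
    (((f.1, fun b : {b : Fin s // b ≠ c} => f.2 b),
      fun r : Fin ((i : ℕ) + 1) => f.2 c ⟨0 + r, by omega⟩),
      fun r : Fin (j c - (i : ℕ) + 1) => f.2 c ⟨(i : ℕ) + r, by omega⟩)) ?_ ?_
  · rintro ⟨u, p⟩ hf
    rw [mem_coe, mem_filter] at hf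
    obtain ⟨hf1, hf2, hf3⟩ := hf
    rw [mem_cps] at hf1
    dsimp only at hf1 hf2 hf3
    rw [mem_coe, mem_product, mem_wk]
    refine ⟨?_, (hf1.walk c).win i (j c - i) (by omega), ?_, ?_⟩
    · rw [mem_Pc]
      refine ⟨?_, ?_, (hf1.walk c).win 0 i (by omega), ?_, ?_, ?_, ?_⟩
      · rw [mem_oth]
        refine ⟨fun b => hf1.start b, fun b => hf1.walk b, ?_⟩
        intro b b' r r' hr h
        have h1 := hf1.inj b b' r r' hr h
        exact ⟨Subtype.ext h1.1, h1.2⟩
      · funext b
        exact hf2 b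
      · rw [← hf1.start c]
        exact congrArg (p c) (Fin.ext (by simp))
      · rw [← hf3]
        exact congrArg (p c) (Fin.ext (by simp))
      · intro r r' h
        dsimp only at h
        by_cases hr : (r : ℕ) = 0
        · by_cases hr' : (r' : ℕ) = 0
          · exact Fin.ext (hr.trans hr'.symm)
          · have h1 := hf1.inj c c ⟨0 + r', by omega⟩ ⟨0 + r, by omega⟩
              (fun h0 => hr' (by have := congrArg Fin.val h0; simpa using this)) h.symm
            have h2 := h1.2
            simp only [zero_add] at h2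
            exact Fin.ext h2.symm
        · have h1 := hf1.inj c c ⟨0 + r, by omega⟩ ⟨0 + r', by omega⟩
              (fun h0 => hr (by have := congrArg Fin.val h0; simpa using this)) h
          have h2 := h1.2
          simp only [zero_add] at h2
          exact Fin.ext h2
      · intro r hr
        unfold oS at hr
        rw [mem_biUnion] at hr
        obtain ⟨b, -, hb⟩ := hr
        rw [mem_image] at hb
        obtain ⟨r', -, hr'⟩ := hb
        have h1 := hf1.inj b c r'.succ _ (Fin.succ_ne_zero _) hr'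
        exact b.2 h1.1
    · rw [← hf3]
      exact congrArg (p c) (Fin.ext (by simp))
    · rw [← hf2 c]
      exact congrArg (p c) (Fin.ext (by simp))
  · rintro ⟨u, p⟩ _ ⟨u', p'⟩ _ h
    rw [Prod.mk.injEq, Prod.mk.injEq, Prod.mk.injEq] at h
    obtain ⟨⟨⟨h1, h2⟩, h3⟩, h4⟩ := h
    dsimp only at h1 h2 h3 h4
    rw [Prod.mk.injEq]
    refine ⟨h1, ?_⟩
    funext b
    by_cases hb : b = c
    · subst hb
      funext r
      by_cases hr : (r : ℕ) ≤ i
      · have := congrFun h3 ⟨r, by omega⟩
        simp only [zero_add] at this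
        exact this
      · have := congrFun h4 ⟨r - i, by omega⟩
        have e : (⟨(i : ℕ) + (r - i), by omega⟩ : Fin (j b + 1)) = r := Fin.ext (by simp; omega)
        simp only [e] at this
        exact this
    · exact congrFun h2 ⟨b, hb⟩

end P13

/-- JS-13 -/
theorem D_inner {s : ℕ} {j : Fin s → ℕ} {T D : ℝ} (c : Fin s) (i : Fin (j c))
    (hW : ∀ y, W G (2 * (j c - i)) y y ≤ T * D ^ (2 * (j c - i))) :
    ∑ X, ∑ z, IXz G j X c i z ^ 2 ≤ T * D ^ (2 * (j c - i)) * Qc G j c i := by
  classical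
  have h0 : ∀ X z, 0 ≤ IXz G j X c i z := fun X z => by
    unfold IXz
    exact Nat.cast_nonneg _
  calc ∑ X, ∑ z, IXz G j X c i z ^ 2
      ≤ ∑ X : Fin s → V, ∑ z,
        (Iv G (oth G j c) (fun o => o.1) oX oS i (fun b : {b : Fin s // b ≠ c} => X b) z *
        W G (j c - i) z (X c)) ^ 2 :=
        sum_le_sum fun X _ => sum_le_sum fun z _ =>
          pow_le_pow_left₀ (h0 X z) (P13.IXz_le c i X z) 2
    _ = ∑ q : V × ({b : Fin s // b ≠ c} → V), ∑ z,
        (Iv G (oth G j c) (fun o => o.1) oX oS i q.2 z * W G (j c - i) z q.1) ^ 2 := by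
        refine Fintype.sum_equiv (Equiv.piSplitAt c (fun _ => V)) _ _ fun X => ?_
        rfl
    _ = ∑ ξ : {b : Fin s // b ≠ c} → V, ∑ z,
        Iv G (oth G j c) (fun o => o.1) oX oS i ξ z ^ 2 * W G (2 * (j c - i)) z z := by
        rw [Fintype.sum_prod_type, sum_comm]
        refine sum_congr rfl fun ξ _ => ?_
        rw [sum_comm]
        refine sum_congr rfl fun z _ => ?_
        rw [W_self_eq, mul_sum]
        refine sum_congr rfl fun x _ => ?_
        rw [mul_pow]
    _ ≤ ∑ ξ : {b : Fin s // b ≠ c} → V, ∑ z,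
        Iv G (oth G j c) (fun o => o.1) oX oS i ξ z ^ 2 * (T * D ^ (2 * (j c - i))) :=
        sum_le_sum fun ξ _ => sum_le_sum fun z _ =>
          mul_le_mul_of_nonneg_left (hW z) (sq_nonneg _)
    _ = T * D ^ (2 * (j c - i)) * Qc G j c i := by
        unfold Qc Qv
        simp only [← sum_mul]
        rw [mul_comm]

end Pool.Agent.Helper55.JS
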